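import Pool.Agent.MP_79523e_co.H63.Levels

/- From level `AA` to the whole vertex set. -/

namespace Pool.Agent.MP_79523e_co.H63

open Finset

def Gen (Q : Set Vx → Prop) : ℕ → Set Vx → Prop
  | 0, C => Q C
  | n + 1, C => ∃ C1 C2, Gen Q n C1 ∧ Gen Q n C2 ∧ C = J C1 C2

def Reach (Q Q' : Set Vx → Prop) : Prop := ∃ n, ∀ C, Gen Q n C → Q' C

theorem Gen.shift {Q Q' : Set Vx → Prop} {n : ℕ} (h : ∀ C, Gen Q n C → Q' C) :
    ∀ m C, Gen Q (n + m) C → Gen Q' m C := by
  intro m
  induction m with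
  | zero => exact h
  | succ m ih =>
    rintro C ⟨C1, C2, h1, h2, rfl⟩
    exact ⟨C1, C2, ih _ h1, ih _ h2, rfl⟩

theorem Reach.trans {Q Q' Q'' : Set Vx → Prop} (h : Reach Q Q') (h' : Reach Q' Q'') :
    Reach Q Q'' := by
  obtain ⟨n, h⟩ := h
  obtain ⟨m, h'⟩ := h'
  exact ⟨n + m, fun C hC => h' C (Gen.shift h m C hC)⟩

theorem Reach.step {Q Q' : Set Vx → Prop} (h : ∀ C C', Q C → Q C' → Q' (J C C')) : Reach Q Q' :=
  ⟨1, by
    rintro C ⟨C1, C2, h1, h2, rfl⟩
    exact h _ _ h1 h2⟩

theorem Reach.imp {Q Q' : Set Vx → Prop} (h : ∀ C, Q C → Q' C) : Reach Q Q' := ⟨0, h⟩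

theorem chain {L : Type} [Fintype L] (S : Set Vx → L → Prop) (P : Set Vx → Prop)
    (hS : ∀ C C' l, AA C → AA C' → S C l → S (J C C') l)
    (hP : ∀ C C', AA C → AA C' → P C → P (J C C'))
    (hE : ∀ C C' l, AA C → AA C' → S C l → S C' l → P (J C C')) :
    Reach (fun C => AA C ∧ ∃ l, S C l) (fun C => AA C ∧ P C) := by
  classical
  have key : ∀ a : ℕ, Reach (fun C => AA C ∧ ∃ l, S C l)
      (fun C => AA C ∧ (a + 1 ≤ (univ.filter (S C)).card ∨ P C)) := by
    intro a
    induction a with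
    | zero =>
      refine Reach.imp ?_
      rintro C ⟨h, l, hl⟩
      exact ⟨h, Or.inl (card_pos.mpr ⟨l, by simpa using hl⟩)⟩
    | succ a ih =>
      refine ih.trans (Reach.step ?_)
      rintro C C' ⟨h, h1⟩ ⟨h', h2⟩
      refine ⟨T2 h.gam h', ?_⟩
      rcases h1 with h1 | h1
      swap
      · exact Or.inr (hP _ _ h h' h1)
      rcases h2 with h2 | h2
      swap
      · right; rw [J_comm]; exact hP _ _ h' h h2
      by_cases hd : Disjoint (univ.filter (S C)) (univ.filter (S C'))
      · left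
        have hsub : univ.filter (S C) ∪ univ.filter (S C') ⊆ univ.filter (S (J C C')) := by
          intro l hl
          simp only [mem_union, mem_filter, mem_univ, true_and] at hl ⊢
          rcases hl with hl | hl
          · exact hS _ _ l h h' hl
          · rw [J_comm]; exact hS _ _ l h' h hl
        have := card_le_card hsub
        rw [card_union_of_disjoint hd] at this
        omega
      · right
        obtain ⟨l, hl1, hl2⟩ := not_disjoint_iff.mp hd
        simp only [mem_filter, mem_univ, true_and] at hl1 hl2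
        exact hE _ _ l h h' hl1 hl2
  refine (key (Fintype.card L)).trans (Reach.imp ?_)
  rintro C ⟨h, h1 | h1⟩
  · have := card_le_univ (univ.filter (S C))
    omega
  · exact ⟨h, h1⟩

/-- column `x` is inside the neighbourhood of `C` up to one cell -/
def S2 (C : Set Vx) (x : Fin 23) : Prop := ∃ e, ∀ y, y ≠ e → fu (nb C) x y
/-- column `x` is inside the neighbourhood of `C` -/
def S3 (C : Set Vx) (x : Fin 23) : Prop := ∀ y, fu (nb C) x y

theorem S3_of_il {C : Set Vx} {x e e' : Fin 23} (he : e ≠ e') (h : il C x e) (h' : il C x e') :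
    S3 C x := by
  intro y
  by_cases hy : y = e
  · exact il_full h' (hy ▸ he)
  · exact il_full h hy

theorem row2.cover {C : Set Vx} {y : Fin 23} (h : row2 C y) (x : Fin 23) : il (nb C) x y := by
  obtain ⟨a, ha, hp⟩ := h.avoid x
  exact pt_il hp ha.symm

theorem S2_persist {C C' : Set Vx} {x : Fin 23} (h' : Ar C') (h : S2 C x) : S2 (J C C') x := by
  obtain ⟨e, he⟩ := h
  obtain ⟨y, y', hy, h1, h2⟩ := h'
  by_cases hye : y = e
  · exact ⟨y', fun z hz => il_full (fu_il (he y' (fun h => hy (hye.trans h.symm))) (h2.cover x)) hz⟩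
  · exact ⟨y, fun z hz => il_full (fu_il (he y hye) (h1.cover x)) hz⟩

theorem S3_persist {C C' : Set Vx} {x : Fin 23} (h' : Ar C') (h : S3 C x) : S3 (J C C') x := by
  obtain ⟨y, y', hy, h1, h2⟩ := h'
  exact S3_of_il hy (fu_il (h y) (h1.cover x)) (fu_il (h y') (h2.cover x))

theorem ev1 {C C' : Set Vx} {y : Fin 23} (h : row2 C y) (h' : row2 C' y) :
    ∃ x, S2 (J C C') x := by
  obtain ⟨a, -, ha⟩ := h.avoid 0
  obtain ⟨b, hb, hb'⟩ := h'.avoid a
  obtain ⟨D, hD, hD'⟩ := R2 ha hb' hb.symm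
  obtain ⟨c, hc⟩ : D.Nonempty := card_pos.mp (by omega)
  exact ⟨c, y, fun z hz => il_full (hD' c hc) hz⟩

theorem ev2 {C C' : Set Vx} {x : Fin 23} (h : S2 C x) (h' : S2 C' x) : S3 (J C C') x := by
  obtain ⟨e, he⟩ := h
  obtain ⟨e', he'⟩ := h'
  obtain ⟨u, -, w, -, huw, e1, e2, e3, e4⟩ := two_avoid (D := univ) (by simp) e e'
  exact S3_of_il huw (fu_fu (he u e1) (he' u e2)).il (fu_fu (he w e3) (he' w e4)).il

theorem ev3 {C C' : Set Vx} {x : Fin 23} (h : S3 C x) (h' : S3 C' x) (x' y : Fin 23) :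
    fu (nb (J C C')) x' y := by
  have hf : ∀ z, fu (J C C') x z := fun z => fu_fu (h z) (h' z)
  by_cases hx : x' = x
  · subst hx
    exact S3_of_il (e := 0) (e' := 1) (by decide) (hf 0).il (hf 1).il y
  · exact jl_full (fu_T (hf y)).il hx

/-- a predicate on rows or columns, read on `C` or on its transpose -/
def both (S : Set Vx → Fin 23 → Prop) (C : Set Vx) (l : Bool × Fin 23) : Prop :=
  S (if l.1 then T C else C) l.2

theorem both_persist {S : Set Vx → Fin 23 → Prop}
    (hS : ∀ C C' x, AA C → AA C' → S C x → S (J C C') x) :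
    ∀ C C' l, AA C → AA C' → both S C l → both S (J C C') l := by
  rintro C C' ⟨b, x⟩ h h' hl
  cases b
  · exact hS C C' x h h' hl
  · have := hS (T C) (T C') x (AA_T h) (AA_T h') hl
    rwa [← T_J] at this

theorem reachA : Reach AA (fun C => C = Set.univ) := by
  have p1 := both_persist (S := row2) (fun C C' x h h' hl => by
    rw [J_comm]; exact T2row h'.gam hl)
  have p2 := both_persist (S := S2) (fun C C' x _ h' hl => S2_persist h'.1 hl)
  have p3 := both_persist (S := S3) (fun C C' x _ h' hl => S3_persist h'.1 hl)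
  have c0 : Reach AA (fun C => AA C ∧ ∃ l, both row2 C l) := by
    refine Reach.imp fun C h => ⟨h, ?_⟩
    obtain ⟨y, -, -, h1, -⟩ := h.1
    exact ⟨(false, y), h1⟩
  have c1 := chain (both row2) (fun C => ∃ l, both S2 C l) p1
    (fun C C' h h' ⟨l, hl⟩ => ⟨l, p2 C C' l h h' hl⟩) (by
      rintro C C' ⟨b, y⟩ - - h1 h2
      cases b
      · obtain ⟨x, hx⟩ := ev1 h1 h2
        exact ⟨(false, x), hx⟩
      · obtain ⟨x, hx⟩ := ev1 (C := T C) (C' := T C') h1 h2
        rw [← T_J] at hx
        exact ⟨(true, x), hx⟩)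
  have c2 := chain (both S2) (fun C => ∃ l, both S3 C l) p2
    (fun C C' h h' ⟨l, hl⟩ => ⟨l, p3 C C' l h h' hl⟩) (by
      rintro C C' ⟨b, y⟩ - - h1 h2
      cases b
      · exact ⟨(false, y), ev2 h1 h2⟩
      · have hx := ev2 (C := T C) (C' := T C') h1 h2
        rw [← T_J] at hx
        exact ⟨(true, y), hx⟩)
  have c3 := chain (both S3) (fun C => ∀ l, both S3 C l) p3
    (fun C C' h h' hl l => p3 C C' l h h' (hl l)) (by
      rintro C C' ⟨b, y⟩ - - h1 h2
      have hall : ∀ x z, fu (nb (J C C')) x z := by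
        cases b
        · exact ev3 h1 h2
        · intro x z
          have hx := fu_T (ev3 (C := T C) (C' := T C') h1 h2 z x)
          rwa [← T_J, ← T_nb, T_T] at hx
      rintro ⟨b', x⟩
      cases b'
      · exact fun z => hall x z
      · intro z
        have := fu_T (hall z x)
        rwa [T_nb] at this)
  refine (((c0.trans c1).trans c2).trans c3).trans (Reach.step ?_)
  rintro C C' ⟨-, h⟩ ⟨-, h'⟩
  apply Set.eq_univ_of_forall
  rintro ⟨x, y, i, j⟩
  exact ⟨h (false, x) y i j, h' (false, x) y i j⟩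

theorem reachL1 : Reach L1 (fun C => C = Set.univ) :=
  (Reach.step fun _ _ => step1).trans ((Reach.step fun _ _ => step2).trans
    ((Reach.step fun _ _ => step3).trans ((Reach.step fun _ _ => step4).trans
      ((Reach.step fun _ _ => step5).trans reachA))))

end Pool.Agent.MP_79523e_co.H63
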