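import Pool.Agent.MP_79523e_co.H63.Tour

/- The graph on `Fin 23 × Fin 23 × Fin 3 × Fin 3` and the local rules for
intersections of neighbourhoods. -/

namespace Pool.Agent.MP_79523e_co.H63

open Finset

abbrev Vx := Fin 23 × Fin 23 × Fin 3 × Fin 3

def Ad (p q : Vx) : Prop :=
  (q.2.1 = p.2.1 ∧ q.1 ≠ p.1 ∧ q.2.2.1 = p.2.2.1 + sg p.1 q.1) ∨
  (q.1 = p.1 ∧ q.2.1 ≠ p.2.1 ∧ q.2.2.2 = p.2.2.2 + sg p.2.1 q.2.1)

def nb (C : Set Vx) : Set Vx := {q | ∃ p ∈ C, Ad p q}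

def J (C C' : Set Vx) : Set Vx := nb C ∩ nb C'

def tr (p : Vx) : Vx := (p.2.1, p.1, p.2.2.2, p.2.2.1)

def T (C : Set Vx) : Set Vx := {p | tr p ∈ C}

theorem J_comm (C C' : Set Vx) : J C C' = J C' C := Set.inter_comm _ _

theorem tr_tr (p : Vx) : tr (tr p) = p := rfl

theorem ad_tr {p q : Vx} (h : Ad p q) : Ad (tr p) (tr q) := h.symm

theorem T_T (C : Set Vx) : T (T C) = C := rfl

theorem T_nb (C : Set Vx) : T (nb C) = nb (T C) := by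
  ext q
  constructor
  · rintro ⟨p, hp, h⟩
    exact ⟨tr p, hp, ad_tr h⟩
  · rintro ⟨p, hp, h⟩
    exact ⟨tr p, hp, ad_tr h⟩

theorem T_J (C C' : Set Vx) : T (J C C') = J (T C) (T C') := by
  unfold J
  rw [← T_nb, ← T_nb]
  rfl

def pt (C : Set Vx) (x y : Fin 23) : Prop := ∃ i j, (x, y, i, j) ∈ C
def il (C : Set Vx) (x y : Fin 23) : Prop := ∃ i, ∀ j, (x, y, i, j) ∈ C
def fu (C : Set Vx) (x y : Fin 23) : Prop := ∀ i j, (x, y, i, j) ∈ C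

theorem pt_T {C : Set Vx} {x y : Fin 23} (h : pt C x y) : pt (T C) y x := by
  obtain ⟨i, j, h⟩ := h
  exact ⟨j, i, h⟩

theorem pt_T' {C : Set Vx} {x y : Fin 23} (h : pt (T C) x y) : pt C y x := pt_T h

theorem fu_T {C : Set Vx} {x y : Fin 23} (h : fu C x y) : fu (T C) y x := fun i j => h j i

theorem il.pt {C : Set Vx} {x y : Fin 23} (h : il C x y) : pt C x y := by
  obtain ⟨i, h⟩ := h
  exact ⟨i, 0, h 0⟩

theorem fu.il {C : Set Vx} {x y : Fin 23} (h : fu C x y) : il C x y := ⟨0, h 0⟩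

theorem row_mem {C : Set Vx} {x y x' : Fin 23} {i j : Fin 3} (h : (x, y, i, j) ∈ C) (hx : x' ≠ x)
    (j' : Fin 3) : (x', y, i + sg x x', j') ∈ nb C :=
  ⟨_, h, Or.inl ⟨rfl, hx, rfl⟩⟩

theorem col_mem {C : Set Vx} {x y y' : Fin 23} {i j : Fin 3} (h : (x, y, i, j) ∈ C) (hy : y' ≠ y)
    (i' : Fin 3) : (x, y', i', j + sg y y') ∈ nb C :=
  ⟨_, h, Or.inr ⟨rfl, hy, rfl⟩⟩

theorem il_full {C : Set Vx} {x e y : Fin 23} (h : il C x e) (hy : y ≠ e) : fu (nb C) x y := by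
  obtain ⟨i, h⟩ := h
  intro i' j'
  have := col_mem (h (j' - sg e y)) hy i'
  rwa [sub_add_cancel] at this

theorem pt_il {C : Set Vx} {x y x' : Fin 23} (h : pt C x y) (hx : x' ≠ x) : il (nb C) x' y := by
  obtain ⟨i, j, h⟩ := h
  exact ⟨_, row_mem h hx⟩

theorem jl_full {C : Set Vx} {e x y : Fin 23} (h : il (T C) y e) (hx : x ≠ e) : fu (nb C) x y := by
  have := fu_T (il_full h hx)
  rwa [← T_nb, T_T] at this

theorem fu_il {C C' : Set Vx} {x y : Fin 23} (h : fu (nb C) x y) (h' : il (nb C') x y) :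
    il (J C C') x y := by
  obtain ⟨i, h'⟩ := h'
  exact ⟨i, fun j => ⟨h i j, h' j⟩⟩

theorem fu_fu {C C' : Set Vx} {x y : Fin 23} (h : fu (nb C) x y) (h' : fu (nb C') x y) :
    fu (J C C') x y := fun i j => ⟨h i j, h' i j⟩

theorem R8 {C C' : Set Vx} {x y x' y' : Fin 23} {i j i' j' : Fin 3} (h : (x, y, i, j) ∈ C)
    (h' : (x', y', i', j') ∈ C') (hx : x ≠ x') (hy : y ≠ y') :
    (x', y, i + sg x x', j' + sg y' y) ∈ J C C' :=
  ⟨row_mem h hx.symm _, col_mem h' hy _⟩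

theorem R1 {C C' : Set Vx} {x y x' y' : Fin 23} (h : pt C x y) (h' : pt C' x' y') (hx : x ≠ x')
    (hy : y ≠ y') : pt (J C C') x' y := by
  obtain ⟨i, j, h⟩ := h
  obtain ⟨i', j', h'⟩ := h'
  exact ⟨_, _, R8 h h' hx hy⟩

theorem R1' {C C' : Set Vx} {x y x' y' : Fin 23} (h : pt C x y) (h' : pt C' x' y') (hx : x ≠ x')
    (hy : y ≠ y') : pt (J C C') x y' := by
  rw [J_comm]; exact R1 h' h hx.symm hy.symm

def rowL (k : ℕ) (C : Set Vx) (y : Fin 23) : Prop :=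
  ∃ D : Finset (Fin 23), k ≤ D.card ∧ ∀ c ∈ D, il C c y

theorem rowL.mono {k l : ℕ} {C : Set Vx} {y : Fin 23} (h : rowL k C y) (hl : l ≤ k) :
    rowL l C y := by
  obtain ⟨D, h1, h2⟩ := h
  exact ⟨D, hl.trans h1, h2⟩

theorem R2 {C C' : Set Vx} {x x' y : Fin 23} (h : pt C x y) (h' : pt C' x' y) (hx : x ≠ x') :
    rowL 5 (J C C') y := by
  obtain ⟨i, j, h⟩ := h
  obtain ⟨i', j', h'⟩ := h'
  obtain ⟨D, hD, hD'⟩ := pair_count hx i i'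
  refine ⟨D, hD, fun c hc => ?_⟩
  obtain ⟨h1, h2, h3⟩ := hD' c hc
  exact ⟨i + sg x c, fun k => ⟨row_mem h h1 k, h3 ▸ row_mem h' h2 k⟩⟩

theorem R2T {C C' : Set Vx} {x y y' : Fin 23} (h : pt C x y) (h' : pt C' x y') (hy : y ≠ y') :
    rowL 5 (T (J C C')) x := by
  rw [T_J]; exact R2 (pt_T h) (pt_T h') hy

theorem R3 {C C' : Set Vx} {x e x' y' : Fin 23} (h : il C x e) (h' : pt C' x' y') (hy : y' ≠ e)
    (hx : x ≠ x') : il (J C C') x y' :=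
  fu_il (il_full h hy) (pt_il h' hx)

theorem R7 {C C' : Set Vx} {x y : Fin 23} {i j j' : Fin 3} (h : (x, y, i, j) ∈ C)
    (h' : (x, y, i, j') ∈ C') : rowL 5 (J C C') y := by
  refine ⟨univ.erase x, by simp, fun c hc => ?_⟩
  have hc' := (mem_erase.mp hc).1
  exact ⟨i + sg x c, fun k => ⟨row_mem h hc' k, row_mem h' hc' k⟩⟩

theorem R6 {C C' : Set Vx} {y : Fin 23} (h : rowL 4 C y) (h' : rowL 4 C' y) :
    rowL 13 (J C C') y := by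
  classical
  obtain ⟨D, hD, hC⟩ := h
  obtain ⟨D', hD', hC'⟩ := h'
  have hl : ∀ c : Fin 23, ∃ i : Fin 3, c ∈ D → ∀ j, (c, y, i, j) ∈ C := by
    intro c
    by_cases hc : c ∈ D
    · obtain ⟨i, hi⟩ := hC c hc
      exact ⟨i, fun _ => hi⟩
    · exact ⟨0, fun h => absurd h hc⟩
  have hl' : ∀ c : Fin 23, ∃ i : Fin 3, c ∈ D' → ∀ j, (c, y, i, j) ∈ C' := by
    intro c
    by_cases hc : c ∈ D'
    · obtain ⟨i, hi⟩ := hC' c hc
      exact ⟨i, fun _ => hi⟩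
    · exact ⟨0, fun h => absurd h hc⟩
  choose lv hlv using hl
  choose lv' hlv' using hl'
  obtain ⟨B, hB, hB2⟩ := quad hD lv
  obtain ⟨B', hB', hB2'⟩ := quad hD' lv'
  refine ⟨(B ∪ B')ᶜ, ?_, fun c hc => ?_⟩
  · rw [card_compl, Fintype.card_fin]
    have := card_union_le B B'
    omega
  · rw [mem_compl, mem_union, not_or] at hc
    obtain ⟨a, ha, b, hb, h1, h2, h3⟩ := hB2 c hc.1
    obtain ⟨a', ha', b', hb', h1', h2', h3'⟩ := hB2' c hc.2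
    have pig : ∀ u u' w w' : Fin 3, u ≠ u' → w ≠ w' → u = w ∨ u = w' ∨ u' = w ∨ u' = w' := by
      decide
    have m1 := row_mem (hlv a ha 0) h1.symm
    have m2 := row_mem (hlv b hb 0) h2.symm
    have m3 := row_mem (hlv' a' ha' 0) h1'.symm
    have m4 := row_mem (hlv' b' hb' 0) h2'.symm
    rcases pig _ _ _ _ h3 h3' with e | e | e | e
    · exact ⟨_, fun k => ⟨m1 k, e ▸ m3 k⟩⟩
    · exact ⟨_, fun k => ⟨m1 k, e ▸ m4 k⟩⟩
    · exact ⟨_, fun k => ⟨m2 k, e ▸ m3 k⟩⟩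
    · exact ⟨_, fun k => ⟨m2 k, e ▸ m4 k⟩⟩

/-- two elements of a large finset avoiding two given elements -/
theorem two_avoid {D : Finset (Fin 23)} (h : 4 ≤ D.card) (a b : Fin 23) :
    ∃ c ∈ D, ∃ d ∈ D, c ≠ d ∧ c ≠ a ∧ c ≠ b ∧ d ≠ a ∧ d ≠ b := by
  have h1 : 1 < ((D.erase a).erase b).card := by
    have := pred_card_le_card_erase (s := D) (a := a)
    have := pred_card_le_card_erase (s := D.erase a) (a := b)
    omega
  obtain ⟨c, hc, d, hd, hcd⟩ := one_lt_card.mp h1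
  simp only [mem_erase] at hc hd
  exact ⟨c, hc.2.2, d, hd.2.2, hcd, hc.2.1, hc.1, hd.2.1, hd.1⟩

theorem two_common {D D' : Finset (Fin 23)} (h : 13 ≤ D.card) (h' : 13 ≤ D'.card) :
    ∃ c d, c ≠ d ∧ c ∈ D ∧ c ∈ D' ∧ d ∈ D ∧ d ∈ D' := by
  have h1 : 1 < (D ∩ D').card := by
    have := card_union_add_card_inter D D'
    have h2 : (D ∪ D').card ≤ 23 := by simpa using card_le_univ (D ∪ D')
    omega
  obtain ⟨c, hc, d, hd, hcd⟩ := one_lt_card.mp h1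
  simp only [mem_inter] at hc hd
  exact ⟨c, d, hcd, hc.1, hc.2, hd.1, hd.2⟩

def gam (C : Set Vx) : Prop := ∃ x y x' y', x ≠ x' ∧ y ≠ y' ∧ pt C x y ∧ pt C x' y'
def row2 (C : Set Vx) (y : Fin 23) : Prop := ∃ x x', x ≠ x' ∧ pt C x y ∧ pt C x' y
def Ar (C : Set Vx) : Prop := ∃ y y', y ≠ y' ∧ row2 C y ∧ row2 C y'
def AA (C : Set Vx) : Prop := Ar C ∧ Ar (T C)
def bet (C : Set Vx) : Prop := ∃ y, rowL 5 C y
def bet13 (C : Set Vx) : Prop := ∃ y, rowL 13 C y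
def bet2 (C : Set Vx) : Prop := ∃ y y', y ≠ y' ∧ rowL 4 C y ∧ rowL 5 C y'
def dbl (C : Set Vx) (x y : Fin 23) : Prop := ∃ i j i' j', i ≠ i' ∧ (x, y, i, j) ∈ C ∧ (x, y, i', j') ∈ C
def gam2 (C : Set Vx) : Prop := ∃ x y x' y', x ≠ x' ∧ y ≠ y' ∧ dbl C x y ∧ dbl C x' y'

theorem gam_T {C : Set Vx} (h : gam C) : gam (T C) := by
  obtain ⟨x, y, x', y', h1, h2, h3, h4⟩ := h
  exact ⟨y, x, y', x', h2, h1, pt_T h3, pt_T h4⟩

theorem AA_T {C : Set Vx} (h : AA C) : AA (T C) := ⟨h.2, h.1⟩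

theorem AA_TJ {C C' : Set Vx} (h : AA (J (T C) (T C'))) : AA (J C C') := by
  rw [← T_J] at h; exact AA_T h

theorem row2.avoid {C : Set Vx} {y : Fin 23} (h : row2 C y) (a : Fin 23) :
    ∃ x, x ≠ a ∧ pt C x y := by
  obtain ⟨x, x', h1, h2, h3⟩ := h
  by_cases hx : x = a
  · exact ⟨x', fun h => h1 (hx.trans h.symm), h3⟩
  · exact ⟨x, hx, h2⟩

theorem rowL.row2 {k : ℕ} {C : Set Vx} {y : Fin 23} (h : rowL k C y) (hk : 2 ≤ k) : row2 C y := by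
  obtain ⟨D, h1, h2⟩ := h
  obtain ⟨c, hc, d, hd, hcd⟩ := one_lt_card.mp (show 1 < D.card by omega)
  exact ⟨c, d, hcd, (h2 c hc).pt, (h2 d hd).pt⟩

theorem gam_of_rows {C : Set Vx} {y y' : Fin 23} (hy : y ≠ y') (h : row2 C y) (h' : row2 C y') :
    ∃ x x', x ≠ x' ∧ pt C x y ∧ pt C x' y' := by
  obtain ⟨x, hx, hp⟩ := h.avoid 0
  obtain ⟨x', hx', hp'⟩ := h'.avoid x
  exact ⟨x, x', hx'.symm, hp, hp'⟩

theorem AA.gam {C : Set Vx} (h : AA C) : gam C := by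
  obtain ⟨y, y', hy, h1, h2⟩ := h.1
  obtain ⟨x, x', h3, h4, h5⟩ := gam_of_rows hy h1 h2
  exact ⟨x, y, x', y', h3, hy, h4, h5⟩

theorem dbl.pt {C : Set Vx} {x y : Fin 23} (h : dbl C x y) : pt C x y := by
  obtain ⟨i, j, -, -, -, h, -⟩ := h
  exact ⟨i, j, h⟩

theorem gam2.gam {C : Set Vx} (h : gam2 C) : gam C := by
  obtain ⟨x, y, x', y', h1, h2, h3, h4⟩ := h
  exact ⟨x, y, x', y', h1, h2, h3.pt, h4.pt⟩

theorem bet2.gam {C : Set Vx} (h : bet2 C) : gam C := by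
  obtain ⟨y, y', hy, h1, h2⟩ := h
  obtain ⟨x, x', h3, h4, h5⟩ := gam_of_rows hy (h1.row2 (by norm_num)) (h2.row2 (by norm_num))
  exact ⟨x, y, x', y', h3, hy, h4, h5⟩

theorem bet2.bet {C : Set Vx} (h : bet2 C) : bet C := by
  obtain ⟨y, y', -, -, h2⟩ := h
  exact ⟨y', h2⟩

theorem bet13.bet {C : Set Vx} (h : bet13 C) : bet C := by
  obtain ⟨y, h2⟩ := h
  exact ⟨y, h2.mono (by norm_num)⟩

theorem grid {C : Set Vx} {c d y z : Fin 23} (hcd : c ≠ d) (hyz : y ≠ z) (h1 : pt C c y)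
    (h2 : pt C d y) (h3 : pt C c z) (h4 : pt C d z) : AA C :=
  ⟨⟨y, z, hyz, ⟨c, d, hcd, h1, h2⟩, ⟨c, d, hcd, h3, h4⟩⟩,
    ⟨c, d, hcd, ⟨y, z, hyz, pt_T h1, pt_T h3⟩, ⟨y, z, hyz, pt_T h2, pt_T h4⟩⟩⟩

end Pool.Agent.MP_79523e_co.H63
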