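import Pool.Agent.MP_79523e_co.H63.Comb

/- The first six levels of the mixing argument. -/

namespace Pool.Agent.MP_79523e_co.H63

open Finset

theorem T2row {C C' : Set Vx} {y : Fin 23} (h : gam C) (h' : row2 C' y) : row2 (J C C') y := by
  obtain ⟨xp, yp, xq, yq, hx, hy, hp, hq⟩ := h
  obtain ⟨a, ha, hpa⟩ := h'.avoid xp
  obtain ⟨b, hb, hpb⟩ := h'.avoid xq
  by_cases h1 : yp = y
  · subst h1
    exact (R2 hp hpa ha.symm).row2 (by norm_num)
  by_cases h2 : yq = y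
  · subst h2
    exact (R2 hq hpb hb.symm).row2 (by norm_num)
  exact ⟨xp, xq, hx, R1' hp hpa ha.symm h1, R1' hq hpb hb.symm h2⟩

theorem T2r {C C' : Set Vx} (h : gam C) (h' : Ar C') : Ar (J C C') := by
  obtain ⟨y, y', hy, h1, h2⟩ := h'
  exact ⟨y, y', hy, T2row h h1, T2row h h2⟩

theorem T2 {C C' : Set Vx} (h : gam C) (h' : AA C') : AA (J C C') :=
  ⟨T2r h h'.1, by rw [T_J]; exact T2r (gam_T h) h'.2⟩

theorem T2' {C C' : Set Vx} (h : AA C) (h' : gam C') : AA (J C C') := by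
  rw [J_comm]; exact T2 h' h

def betS (C : Set Vx) : Prop := bet C ∨ bet (T C)
def bet2S (C : Set Vx) : Prop := bet2 C ∨ bet2 (T C)
def bet13S (C : Set Vx) : Prop := bet13 C ∨ bet13 (T C)

theorem bet2S.betS {C : Set Vx} (h : bet2S C) : betS C := h.imp bet2.bet bet2.bet
theorem bet13S.betS {C : Set Vx} (h : bet13S C) : betS C := h.imp bet13.bet bet13.bet
theorem bet2S.gam {C : Set Vx} (h : bet2S C) : gam C := by
  rcases h with h | h
  · exact h.gam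
  · exact gam_T h.gam

/-- two points: an event, or the same cell, or general position -/
theorem tri {C C' : Set Vx} {x y x' y' : Fin 23} (h : pt C x y) (h' : pt C' x' y') :
    betS (J C C') ∨ (x = x' ∧ y = y') ∨ (x ≠ x' ∧ y ≠ y') := by
  by_cases hx : x = x' <;> by_cases hy : y = y'
  · exact Or.inr (Or.inl ⟨hx, hy⟩)
  · subst hx
    exact Or.inl (Or.inr ⟨x, R2T h h' hy⟩)
  · subst hy
    exact Or.inl (Or.inl ⟨y, R2 h h' hx⟩)
  · exact Or.inr (Or.inr ⟨hx, hy⟩)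

theorem core2 {C C' : Set Vx} {xp yp xq yq xr yr xs ys : Fin 23}
    (hp : pt C xp yp) (hq : pt C xq yq) (hr : pt C' xr yr) (hs : pt C' xs ys)
    (h1 : xp ≠ xq) (h2 : yp ≠ yq) (h3 : xr ≠ xs) (h4 : yr ≠ ys)
    (hqr : xq ≠ xr ∧ yq ≠ yr) (hqs : xq ≠ xs ∧ yq ≠ ys) (hps : xp ≠ xs ∧ yp ≠ ys) :
    AA (J C C') :=
  ⟨⟨yq, ys, hqs.2, ⟨xr, xs, h3, R1 hq hr hqr.1 hqr.2, R1 hq hs hqs.1 hqs.2⟩,
      ⟨xp, xq, h1, R1' hp hs hps.1 hps.2, R1' hq hs hqs.1 hqs.2⟩⟩,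
    ⟨xq, xs, hqs.1, ⟨yr, ys, h4, pt_T (R1' hq hr hqr.1 hqr.2), pt_T (R1' hq hs hqs.1 hqs.2)⟩,
      ⟨yp, yq, h2, pt_T (R1 hp hs hps.1 hps.2), pt_T (R1 hq hs hqs.1 hqs.2)⟩⟩⟩

theorem core {C C' : Set Vx} {xp yp xq yq xr yr xs ys : Fin 23}
    (hp : pt C xp yp) (hq : pt C xq yq) (hr : pt C' xr yr) (hs : pt C' xs ys)
    (h1 : xp ≠ xq) (h2 : yp ≠ yq) (h3 : xr ≠ xs) (h4 : yr ≠ ys) :
    betS (J C C') ∨ AA (J C C') ∨ (xp = xr ∧ yp = yr ∧ xq = xs ∧ yq = ys) ∨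
      (xp = xs ∧ yp = ys ∧ xq = xr ∧ yq = yr) := by
  rcases tri hp hr with a | a
  · exact Or.inl a
  rcases tri hp hs with b | b
  · exact Or.inl b
  rcases tri hq hr with c | c
  · exact Or.inl c
  rcases tri hq hs with d | d
  · exact Or.inl d
  rcases a with a | a <;> rcases b with b | b <;> rcases c with c | c <;> rcases d with d | d
  all_goals first
    | exact absurd (a.1.symm.trans b.1) h3
    | exact absurd (a.1.trans c.1.symm) h1
    | exact absurd (b.1.trans d.1.symm) h1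
    | exact absurd (c.1.symm.trans d.1) h3
    | exact Or.inr (Or.inr (Or.inl ⟨a.1, a.2, d.1, d.2⟩))
    | exact Or.inr (Or.inr (Or.inr ⟨b.1, b.2, c.1, c.2⟩))
    | exact Or.inr (Or.inl (core2 hp hq hr hs h1 h2 h3 h4 c d b))
    | exact Or.inr (Or.inl (core2 hp hq hs hr h1 h2 h3.symm h4.symm d c a))
    | exact Or.inr (Or.inl (core2 hq hp hr hs h1.symm h2.symm h3 h4 a b d))
    | exact Or.inr (Or.inl (core2 hq hp hs hr h1.symm h2.symm h3.symm h4.symm b a c))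

theorem same_cells {C C' : Set Vx} {xp yp xq yq : Fin 23}
    (hp : pt C xp yp) (hq : pt C xq yq) (hr : pt C' xp yp) (hs : pt C' xq yq)
    (h1 : xp ≠ xq) (h2 : yp ≠ yq) : betS (J C C') ∨ gam2 (J C C') := by
  obtain ⟨i1, j1, hp⟩ := hp
  obtain ⟨i2, j2, hq⟩ := hq
  obtain ⟨i3, j3, hr⟩ := hr
  obtain ⟨i4, j4, hs⟩ := hs
  by_cases e1 : i1 = i3
  · subst e1
    exact Or.inl (Or.inl ⟨_, R7 hp hr⟩)
  by_cases e2 : i2 = i4
  · subst e2
    exact Or.inl (Or.inl ⟨_, R7 hq hs⟩)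
  right
  refine ⟨xq, yp, xp, yq, h1.symm, h2, ⟨_, _, _, _, ?_, R8 hp hs h1 h2,
    J_comm C C' ▸ R8 hr hq h1 h2⟩, ⟨_, _, _, _, ?_, R8 hq hr h1.symm h2.symm,
    J_comm C C' ▸ R8 hs hp h1.symm h2.symm⟩⟩
  · intro h; exact e1 (add_right_cancel h)
  · intro h; exact e2 (add_right_cancel h)

theorem T1 {C C' : Set Vx} (h : gam C) (h' : gam C') :
    betS (J C C') ∨ AA (J C C') ∨ gam2 (J C C') := by
  obtain ⟨xp, yp, xq, yq, h1, h2, hp, hq⟩ := h
  obtain ⟨xr, yr, xs, ys, h3, h4, hr, hs⟩ := h'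
  rcases core hp hq hr hs h1 h2 h3 h4 with a | a | ⟨rfl, rfl, rfl, rfl⟩ | ⟨rfl, rfl, rfl, rfl⟩
  · exact Or.inl a
  · exact Or.inr (Or.inl a)
  · exact (same_cells hp hq hr hs h1 h2).imp id Or.inr
  · exact (same_cells hp hq hs hr h1 h2).imp id Or.inr

theorem dbl_dbl {C C' : Set Vx} {x y : Fin 23} (h : dbl C x y) (h' : dbl C' x y) :
    betS (J C C') := by
  obtain ⟨i1, j1, i2, j2, e, m1, m2⟩ := h
  obtain ⟨i3, j3, i4, j4, e', m3, m4⟩ := h'
  have pig : ∀ u u' w w' : Fin 3, u ≠ u' → w ≠ w' → u = w ∨ u = w' ∨ u' = w ∨ u' = w' := by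
    decide
  rcases pig _ _ _ _ e e' with rfl | rfl | rfl | rfl
  · exact Or.inl ⟨_, R7 m1 m3⟩
  · exact Or.inl ⟨_, R7 m1 m4⟩
  · exact Or.inl ⟨_, R7 m2 m3⟩
  · exact Or.inl ⟨_, R7 m2 m4⟩

theorem T1' {C C' : Set Vx} (h : gam2 C) (h' : gam2 C') : betS (J C C') ∨ AA (J C C') := by
  obtain ⟨xp, yp, xq, yq, h1, h2, hp, hq⟩ := h
  obtain ⟨xr, yr, xs, ys, h3, h4, hr, hs⟩ := h'
  rcases core hp.pt hq.pt hr.pt hs.pt h1 h2 h3 h4 with
    a | a | ⟨rfl, rfl, rfl, rfl⟩ | ⟨rfl, rfl, rfl, rfl⟩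
  · exact Or.inl a
  · exact Or.inr a
  · exact Or.inl (dbl_dbl hp hr)
  · exact Or.inl (dbl_dbl hp hs)

theorem T3a {C C' : Set Vx} {xp yp xq yq y : Fin 23} (hp : pt C xp yp) (hq : pt C xq yq)
    (h2 : yp ≠ yq) (h : rowL 4 C' y) (h3 : yp ≠ y) (h4 : yq ≠ y) : AA (J C C') := by
  obtain ⟨D, hD, hC⟩ := h
  obtain ⟨c, hc, d, hd, hcd, e1, e2, e3, e4⟩ := two_avoid hD xp xq
  rw [J_comm]
  exact grid hcd h2 (R3 (hC c hc) hp h3 e1).pt (R3 (hC d hd) hp h3 e3).pt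
    (R3 (hC c hc) hq h4 e2).pt (R3 (hC d hd) hq h4 e4).pt

theorem T3b {C C' : Set Vx} {xp yp xq y : Fin 23} (hp : pt C xp yp) (hq : pt C xq y)
    (h2 : yp ≠ y) (h : rowL 5 C' y) : bet2 (J C C') := by
  obtain ⟨c, hc, hpc⟩ := (h.row2 (by norm_num)).avoid xq
  obtain ⟨D, hD, hC⟩ := h
  refine ⟨yp, y, h2, ⟨D.erase xp, ?_, fun d hd => ?_⟩, R2 hq hpc hc.symm⟩
  · have := pred_card_le_card_erase (s := D) (a := xp)
    omega
  · rw [J_comm]
    exact R3 (hC d (mem_erase.mp hd).2) hp h2 (mem_erase.mp hd).1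

theorem T3 {C C' : Set Vx} (h : gam C) (h' : bet C') : AA (J C C') ∨ bet2 (J C C') := by
  obtain ⟨xp, yp, xq, yq, h1, h2, hp, hq⟩ := h
  obtain ⟨y, h'⟩ := h'
  by_cases e1 : yq = y
  · subst e1
    exact Or.inr (T3b hp hq h2 h')
  by_cases e2 : yp = y
  · subst e2
    exact Or.inr (T3b hq hp h2.symm h')
  exact Or.inl (T3a hp hq h2 (h'.mono (by norm_num)) e2 e1)

theorem X1 {C C' : Set Vx} (h : gam C) (h' : betS C') : AA (J C C') ∨ bet2S (J C C') := by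
  rcases h' with h' | h'
  · exact (T3 h h').imp id Or.inl
  · rcases T3 (gam_T h) h' with a | a
    · exact Or.inl (AA_TJ a)
    · rw [← T_J] at a
      exact Or.inr (Or.inr a)

theorem X1' {C C' : Set Vx} (h : betS C) (h' : gam C') : AA (J C C') ∨ bet2S (J C C') := by
  rw [J_comm]; exact X1 h' h

theorem T4a {C C' : Set Vx} (h : bet C) (h' : bet (T C')) : AA (J C C') := by
  obtain ⟨y, D, hD, hC⟩ := h
  obtain ⟨x, D', hD', hC'⟩ := h'
  obtain ⟨c, hc, d, hd, hcd, e1, -, e3, -⟩ := two_avoid (show 4 ≤ D.card by omega) x x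
  obtain ⟨c', hc', d', hd', hcd', e1', -, e3', -⟩ := two_avoid (show 4 ≤ D'.card by omega) y y
  exact grid hcd hcd'
    (fu_fu (il_full (hC c hc) e1') (jl_full (hC' c' hc') e1)).il.pt
    (fu_fu (il_full (hC d hd) e1') (jl_full (hC' c' hc') e3)).il.pt
    (fu_fu (il_full (hC c hc) e3') (jl_full (hC' d' hd') e1)).il.pt
    (fu_fu (il_full (hC d hd) e3') (jl_full (hC' d' hd') e3)).il.pt

theorem rows_cross {k : ℕ} {C C' : Set Vx} {y y' : Fin 23} (h : rowL k C y) (h' : row2 C' y')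
    (hy : y' ≠ y) : rowL k (J C C') y' := by
  obtain ⟨D, hD, hC⟩ := h
  refine ⟨D, hD, fun c hc => ?_⟩
  obtain ⟨x, hx, hp⟩ := h'.avoid c
  exact R3 (hC c hc) hp hy hx.symm

theorem T4b {C C' : Set Vx} (h : bet C) (h' : bet C') : bet2 (J C C') ∨ bet13 (J C C') := by
  obtain ⟨y, h⟩ := h
  obtain ⟨y', h'⟩ := h'
  by_cases e : y = y'
  · subst e
    exact Or.inr ⟨y, R6 (h.mono (by norm_num)) (h'.mono (by norm_num))⟩
  · left
    refine ⟨y, y', e, ?_, rows_cross h (h'.row2 (by norm_num)) (Ne.symm e)⟩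
    rw [J_comm]
    exact (rows_cross h' (h.row2 (by norm_num)) e).mono (by norm_num)

theorem X2 {C C' : Set Vx} (h : betS C) (h' : betS C') :
    AA (J C C') ∨ bet2S (J C C') ∨ bet13S (J C C') := by
  rcases h with h | h <;> rcases h' with h' | h'
  · exact Or.inr ((T4b h h').imp Or.inl Or.inl)
  · exact Or.inl (T4a h h')
  · left; rw [J_comm]; exact T4a h' h
  · have := T4b h h'
    rw [← T_J] at this
    exact Or.inr (this.imp Or.inr Or.inr)

theorem T5 {C C' : Set Vx} (h : bet13 C) (h' : bet13 C') : AA (J C C') := by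
  obtain ⟨y, D, hD, hC⟩ := h
  obtain ⟨y', D', hD', hC'⟩ := h'
  obtain ⟨c, d, hcd, a1, a2, a3, a4⟩ := two_common hD hD'
  obtain ⟨u, -, w, -, huw, e1, e2, e3, e4⟩ :=
    two_avoid (D := univ) (by simp) y y'
  exact grid hcd huw
    (fu_fu (il_full (hC c a1) e1) (il_full (hC' c a2) e2)).il.pt
    (fu_fu (il_full (hC d a3) e1) (il_full (hC' d a4) e2)).il.pt
    (fu_fu (il_full (hC c a1) e3) (il_full (hC' c a2) e4)).il.pt
    (fu_fu (il_full (hC d a3) e3) (il_full (hC' d a4) e4)).il.pt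

theorem X5 {C C' : Set Vx} (h : bet13S C) (h' : bet13S C') : AA (J C C') := by
  rcases h with h | h <;> rcases h' with h' | h'
  · exact T5 h h'
  · exact T4a h.bet h'.bet
  · rw [J_comm]; exact T4a h'.bet h.bet
  · exact AA_TJ (T5 h h')

theorem two_rows {C : Set Vx} {y z : Fin 23} (hyz : y ≠ z) (h : rowL 13 C y) (h' : rowL 13 C z) :
    AA C := by
  obtain ⟨D, hD, hC⟩ := h
  obtain ⟨D', hD', hC'⟩ := h'
  obtain ⟨c, d, hcd, a1, a2, a3, a4⟩ := two_common hD hD'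
  exact grid hcd hyz (hC c a1).pt (hC d a3).pt (hC' c a2).pt (hC' d a4).pt

theorem T6 {C C' : Set Vx} (h : bet2 C) (h' : bet2 C') : AA (J C C') := by
  obtain ⟨y1, y2, e, h1, h2⟩ := h
  obtain ⟨y3, y4, e', h3, h4⟩ := h'
  have h2' := h2.mono (show 4 ≤ 5 by norm_num)
  have h4' := h4.mono (show 4 ≤ 5 by norm_num)
  obtain ⟨x, x', -, hp, hq⟩ := gam_of_rows e (h1.row2 (by norm_num)) (h2.row2 (by norm_num))
  by_cases a1 : y1 = y3
  · subst a1
    by_cases a2 : y2 = y4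
    · subst a2
      exact two_rows e (R6 h1 h3) (R6 h2' h4')
    · exact T3a hp hq e h4' e' a2
  by_cases a2 : y2 = y3
  · subst a2
    by_cases a3 : y1 = y4
    · subst a3
      exact two_rows e (R6 h1 h4') (R6 h2' h3)
    · exact T3a hp hq e h4' a3 e'
  exact T3a hp hq e h3 a1 a2

theorem X6 {C C' : Set Vx} (h : bet2S C) (h' : bet2S C') : AA (J C C') := by
  rcases h with h | h <;> rcases h' with h' | h'
  · exact T6 h h'
  · exact T4a h.bet h'.bet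
  · rw [J_comm]; exact T4a h'.bet h.bet
  · exact AA_TJ (T6 h h')

def L1 (C : Set Vx) : Prop := gam C ∨ betS C
def L2 (C : Set Vx) : Prop := AA C ∨ gam2 C ∨ betS C
def L3 (C : Set Vx) : Prop := AA C ∨ betS C
def L4 (C : Set Vx) : Prop := AA C ∨ bet2S C ∨ bet13S C
def L5 (C : Set Vx) : Prop := AA C ∨ bet2S C

theorem L5.L4 {C : Set Vx} (h : L5 C) : L4 C := h.imp id Or.inl
theorem L4.L3 {C : Set Vx} (h : L4 C) : L3 C := h.imp id (fun h => h.elim bet2S.betS bet13S.betS)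
theorem L3.L2 {C : Set Vx} (h : L3 C) : L2 C := h.imp id Or.inr

theorem step1 {C C' : Set Vx} (h : L1 C) (h' : L1 C') : L2 (J C C') := by
  rcases h with h | h <;> rcases h' with h' | h'
  · rcases T1 h h' with a | a | a
    · exact Or.inr (Or.inr a)
    · exact Or.inl a
    · exact Or.inr (Or.inl a)
  · exact (L5.L4 (X1 h h')).L3.L2
  · exact (L5.L4 (X1' h h')).L3.L2
  · exact (L4.L3 (X2 h h')).L2

theorem step2 {C C' : Set Vx} (h : L2 C) (h' : L2 C') : L3 (J C C') := by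
  rcases h with h | h | h <;> rcases h' with h' | h' | h'
  · exact Or.inl (T2 h.gam h')
  · exact Or.inl (T2' h h'.gam)
  · exact (L5.L4 (X1 h.gam h')).L3
  · exact Or.inl (T2 h.gam h')
  · exact (T1' h h').symm
  · exact (L5.L4 (X1 h.gam h')).L3
  · exact (L5.L4 (X1' h h'.gam)).L3
  · exact (L5.L4 (X1' h h'.gam)).L3
  · exact L4.L3 (X2 h h')

theorem step3 {C C' : Set Vx} (h : L3 C) (h' : L3 C') : L4 (J C C') := by
  rcases h with h | h <;> rcases h' with h' | h'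
  · exact Or.inl (T2 h.gam h')
  · exact L5.L4 (X1 h.gam h')
  · exact L5.L4 (X1' h h'.gam)
  · exact X2 h h'

theorem step4 {C C' : Set Vx} (h : L4 C) (h' : L4 C') : L5 (J C C') := by
  rcases h with h | h | h <;> rcases h' with h' | h' | h'
  · exact Or.inl (T2 h.gam h')
  · exact Or.inl (T2' h h'.gam)
  · exact X1 h.gam h'.betS
  · exact Or.inl (T2 h.gam h')
  · exact Or.inl (X6 h h')
  · exact X1 h.gam h'.betS
  · exact X1' h.betS h'.gam
  · exact X1' h.betS h'.gam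
  · exact Or.inl (X5 h h')

theorem step5 {C C' : Set Vx} (h : L5 C) (h' : L5 C') : AA (J C C') := by
  rcases h with h | h <;> rcases h' with h' | h'
  · exact T2 h.gam h'
  · exact T2' h h'.gam
  · exact T2 h.gam h'
  · exact X6 h h'

theorem step0 {u v : Vx} (h : (J {u} {v}).Nonempty) : L1 (J {u} {v}) := by
  obtain ⟨x, y, i, j⟩ := u
  obtain ⟨x', y', i', j'⟩ := v
  have hp : pt {(x, y, i, j)} x y := ⟨i, j, rfl⟩
  have hq : pt {(x', y', i', j')} x' y' := ⟨i', j', rfl⟩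
  rcases tri hp hq with a | ⟨rfl, rfl⟩ | a
  · exact Or.inr a
  · obtain ⟨w, ⟨p, rfl, h1⟩, ⟨q, rfl, h2⟩⟩ := h
    rcases h1 with h1 | h1 <;> rcases h2 with h2 | h2
    · have e : i = i' := add_right_cancel (h1.2.2.symm.trans h2.2.2)
      subst e
      exact Or.inr (Or.inl ⟨y, R7 (j := j) (j' := j') rfl rfl⟩)
    · exact absurd h2.1 h1.2.1
    · exact absurd h1.1 h2.2.1
    · have e : j = j' := add_right_cancel (h1.2.2.symm.trans h2.2.2)
      subst e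
      refine Or.inr (Or.inr ⟨x, ?_⟩)
      rw [T_J]
      exact R7 (x := y) (i := j) (j := i) (j' := i') rfl rfl
  · exact Or.inl ⟨x', y, x, y', a.1.symm, a.2, R1 hp hq a.1 a.2, R1' hp hq a.1 a.2⟩

end Pool.Agent.MP_79523e_co.H63
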