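import Pool.Agent.MP_79523e_co.H63.Chain

/- An orientation with balanced 4-cycles gives an odd map to the plane without zeros. -/

namespace Pool.Agent.MP_79523e_co.H63

open Finset

section General

variable {V : Type} [Fintype V]

def g1 (w : V → V → ℝ) (p : (V → ℝ) × (V → ℝ)) : ℝ := ∑ u, ∑ v, p.1 u * p.2 v * w u v

def var (w : V → V → ℝ) (p : (V → ℝ) × (V → ℝ)) : ℝ :=
  ∑ u, ∑ u', ∑ v, p.1 u * p.1 u' * p.2 v * (w u v - w u' v) ^ 2

theorem g1_cont (w : V → V → ℝ) : Continuous (g1 w) := by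
  unfold g1; fun_prop

theorem var_cont (w : V → V → ℝ) : Continuous (var w) := by
  unfold var; fun_prop

theorem g1_swap {w : V → V → ℝ} (hw : ∀ u v, w u v = - w v u) (p : (V → ℝ) × (V → ℝ)) :
    g1 w p.swap = - g1 w p := by
  unfold g1
  rw [sum_comm, ← sum_neg_distrib]
  refine sum_congr rfl fun u _ => ?_
  rw [← sum_neg_distrib]
  refine sum_congr rfl fun v _ => ?_
  simp only [Prod.fst_swap, Prod.snd_swap]
  rw [hw v u]; ring

theorem var_ne {w : V → V → ℝ} {p : (V → ℝ) × (V → ℝ)} (h : var w p ≠ 0) :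
    ∃ u u' v, p.1 u ≠ 0 ∧ p.1 u' ≠ 0 ∧ p.2 v ≠ 0 ∧ w u v ≠ w u' v := by
  obtain ⟨u, -, h⟩ := exists_ne_zero_of_sum_ne_zero h
  obtain ⟨u', -, h⟩ := exists_ne_zero_of_sum_ne_zero h
  obtain ⟨v, -, h⟩ := exists_ne_zero_of_sum_ne_zero h
  simp only [ne_eq, mul_eq_zero, not_or] at h
  refine ⟨u, u', v, h.1.1.1, h.1.1.2, h.1.2, fun e => h.2 (by rw [e]; simp)⟩

theorem var_zero {w : V → V → ℝ} {p : (V → ℝ) × (V → ℝ)} (h1 : ∀ u, 0 ≤ p.1 u)
    (h2 : ∀ v, 0 ≤ p.2 v) (h : var w p = 0) {u u' v : V} (hu : p.1 u ≠ 0) (hu' : p.1 u' ≠ 0)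
    (hv : p.2 v ≠ 0) : w u v = w u' v := by
  have nn : ∀ a b c, 0 ≤ p.1 a * p.1 b * p.2 c * (w a c - w b c) ^ 2 := fun a b c =>
    mul_nonneg (mul_nonneg (mul_nonneg (h1 a) (h1 b)) (h2 c)) (sq_nonneg _)
  unfold var at h
  have a1 := (sum_eq_zero_iff_of_nonneg
    (fun a _ => sum_nonneg fun b _ => sum_nonneg fun c _ => nn a b c)).mp h u (mem_univ _)
  have a2 := (sum_eq_zero_iff_of_nonneg
    (fun b _ => sum_nonneg fun c _ => nn u b c)).mp a1 u' (mem_univ _)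
  have a3 := (sum_eq_zero_iff_of_nonneg (fun c _ => nn u u' c)).mp a2 v (mem_univ _)
  simp only [mul_eq_zero, hu, hu', hv, false_or] at a3
  exact sub_eq_zero.mp (pow_eq_zero_iff (two_ne_zero) |>.mp a3)

theorem no_zero {A : V → V → Prop} {w : V → V → ℝ} (hw : ∀ u v, w u v = - w v u)
    (hs : ∀ u v, A u v → w u v = 1 ∨ w u v = -1)
    (hb : ∀ u u' v v', A u v → A u v' → A u' v → A u' v' → w u v + w u' v' = w u' v + w u v')
    {p : (V → ℝ) × (V → ℝ)} (h1 : p.1 ∈ stdSimplex ℝ V) (h2 : p.2 ∈ stdSimplex ℝ V)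
    (h3 : ∀ u v, p.1 u ≠ 0 → p.2 v ≠ 0 → A u v) (hg : g1 w p = 0) :
    var w p - var w p.swap ≠ 0 := by
  intro hv
  have hv' : var w p = var w p.swap := sub_eq_zero.mp hv
  by_cases h0 : var w p = 0
  · obtain ⟨u0, -, hu0⟩ := exists_ne_zero_of_sum_ne_zero (h1.2.trans_ne one_ne_zero)
    obtain ⟨v0, -, hv0⟩ := exists_ne_zero_of_sum_ne_zero (h2.2.trans_ne one_ne_zero)
    have hc : ∀ u v, p.1 u * p.2 v * w u v = p.1 u * p.2 v * w u0 v0 := by
      intro u v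
      by_cases hu : p.1 u = 0
      · simp [hu]
      by_cases hv : p.2 v = 0
      · simp [hv]
      have e1 := var_zero h1.1 h2.1 h0 hu hu0 hv
      have e2 := var_zero (p := p.swap) h2.1 h1.1 (hv' ▸ h0) hv hv0 hu0
      rw [e1, hw u0 v, e2, ← hw u0 v0]
    have : g1 w p = w u0 v0 := by
      unfold g1
      simp_rw [hc, ← sum_mul, ← mul_sum, h2.2, mul_one, h1.2, one_mul]
    rw [hg] at this
    rcases hs u0 v0 (h3 _ _ hu0 hv0) with e | e <;> rw [e] at this <;> norm_num at this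
  · obtain ⟨u, u', v, hu, hu', hv, e⟩ := var_ne h0
    obtain ⟨v1, v2, u0, hv1, hv2, hu0, e'⟩ := var_ne (p := p.swap) (hv' ▸ h0)
    simp only [Prod.fst_swap, Prod.snd_swap] at hv1 hv2 hu0
    have b1 := hb u u' v v1 (h3 _ _ hu hv) (h3 _ _ hu hv1) (h3 _ _ hu' hv) (h3 _ _ hu' hv1)
    have b2 := hb u u' v v2 (h3 _ _ hu hv) (h3 _ _ hu hv2) (h3 _ _ hu' hv) (h3 _ _ hu' hv2)
    have b3 := hb u u0 v1 v2 (h3 _ _ hu hv1) (h3 _ _ hu hv2) (h3 _ _ hu0 hv1) (h3 _ _ hu0 hv2)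
    rw [hw v1 u0, hw v2 u0] at e'
    have e'' : w u0 v1 ≠ w u0 v2 := fun h => e' (by rw [h])
    have n1 : w u v1 ≠ w u v2 := fun h => e'' (by linarith)
    rcases hs u v (h3 _ _ hu hv) with a | a <;> rcases hs u' v (h3 _ _ hu' hv) with b | b <;>
      rcases hs u v1 (h3 _ _ hu hv1) with c | c <;> rcases hs u v2 (h3 _ _ hu hv2) with d | d <;>
      rcases hs u' v1 (h3 _ _ hu' hv1) with f | f <;>
      rcases hs u' v2 (h3 _ _ hu' hv2) with g | g <;>
      first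
        | exact e (a.trans b.symm)
        | exact n1 (c.trans d.symm)
        | linarith

end General

/-- real sign attached to an element of `Fin 3` -/
def rs (t : Fin 3) : ℝ := if t = 1 then 1 else if t = 2 then -1 else 0

/-- the orientation -/
def wt (p q : Vx) : ℝ :=
  if p.1 ≠ q.1 then rs (sg p.1 q.1) else if p.2.1 ≠ q.2.1 then rs (sg p.2.1 q.2.1) else 0

theorem rs_sg_anti {a c : Fin 23} (h : a ≠ c) : rs (sg a c) = - rs (sg c a) := by
  have := sg_anti h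
  rcases sg_cases a c with e | e <;> rcases sg_cases c a with e' | e' <;> rw [e, e'] at this ⊢
  · exact absurd this (by decide)
  · simp [rs]
  · simp [rs]
  · exact absurd this (by decide)

theorem wt_anti (p q : Vx) : wt p q = - wt q p := by
  unfold wt
  by_cases h1 : p.1 = q.1
  · by_cases h2 : p.2.1 = q.2.1
    · simp [h1, h2]
    · simp only [h1, ne_eq, not_true_eq_false, if_false, h2, Ne.symm h2, not_false_eq_true, if_true]
      exact rs_sg_anti h2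
  · simp only [ne_eq, h1, Ne.symm h1, not_false_eq_true, if_true]
    exact rs_sg_anti h1

theorem rs_sg (a c : Fin 23) : rs (sg a c) = 1 ∨ rs (sg a c) = -1 := by
  rcases sg_cases a c with e | e <;> rw [e] <;> simp [rs]

theorem wt_row {p q : Vx} (h : q.1 ≠ p.1) : wt p q = rs (sg p.1 q.1) := by
  unfold wt; rw [if_pos h.symm]

theorem wt_col {p q : Vx} (h : q.1 = p.1) (h' : q.2.1 ≠ p.2.1) :
    wt p q = rs (sg p.2.1 q.2.1) := by
  unfold wt; rw [if_neg (by simp [h]), if_pos h'.symm]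

theorem wt_sign {p q : Vx} (h : Ad p q) : wt p q = 1 ∨ wt p q = -1 := by
  rcases h with h | h
  · rw [wt_row h.2.1]; exact rs_sg _ _
  · rw [wt_col h.1 h.2.1]; exact rs_sg _ _

theorem four {a b c d : Fin 3} (ha : a = 1 ∨ a = 2) (hb : b = 1 ∨ b = 2) (hc : c = 1 ∨ c = 2)
    (hd : d = 1 ∨ d = 2) (h : a + b = c + d) : rs a + rs b = rs c + rs d := by
  rcases ha with rfl | rfl <;> rcases hb with rfl | rfl <;> rcases hc with rfl | rfl <;>
    rcases hd with rfl | rfl <;>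
    first
      | exact absurd h (by decide)
      | simp [rs]

theorem lev {i i' k k' a b c d : Fin 3} (h1 : k = i + a) (h2 : k' = i + d) (h3 : k = i' + c)
    (h4 : k' = i' + b) : a + b = c + d := by
  revert i i' k k' a b c d
  decide

theorem wt_bal (u u' v v' : Vx) (h1 : Ad u v) (h2 : Ad u v') (h3 : Ad u' v) (h4 : Ad u' v') :
    wt u v + wt u' v' = wt u' v + wt u v' := by
  obtain ⟨x1, y1, i1, j1⟩ := u
  obtain ⟨x2, y2, i2, j2⟩ := u'
  obtain ⟨x3, y3, i3, j3⟩ := v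
  obtain ⟨x4, y4, i4, j4⟩ := v'
  rcases h1 with ⟨a1, a2, a3⟩ | ⟨a1, a2, a3⟩ <;> rcases h2 with ⟨b1, b2, b3⟩ | ⟨b1, b2, b3⟩ <;>
    rcases h3 with ⟨c1, c2, c3⟩ | ⟨c1, c2, c3⟩ <;> rcases h4 with ⟨d1, d2, d3⟩ | ⟨d1, d2, d3⟩
  all_goals first
    | rw [wt_row a2]
    | rw [wt_col a1 a2]
  all_goals first
    | rw [wt_row b2]
    | rw [wt_col b1 b2]
  all_goals first
    | rw [wt_row c2]
    | rw [wt_col c1 c2]
  all_goals first
    | rw [wt_row d2]
    | rw [wt_col d1 d2]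
  all_goals dsimp only at *
  all_goals first
    | exact four (sg_cases _ _) (sg_cases _ _) (sg_cases _ _) (sg_cases _ _) (lev a3 b3 c3 d3)
    | (subst_vars; first | contradiction | ring_nf)
  all_goals rw [rs_sg_anti b2, rs_sg_anti d2]; ring

theorem ad_symm {p q : Vx} (h : Ad p q) : Ad q p := by
  rcases h with ⟨h1, h2, h3⟩ | ⟨h1, h2, h3⟩
  · refine Or.inl ⟨h1.symm, h2.symm, ?_⟩
    rw [h3, add_assoc, sg_anti h2.symm, add_zero]
  · refine Or.inr ⟨h1.symm, h2.symm, ?_⟩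
    rw [h3, add_assoc, sg_anti h2.symm, add_zero]

theorem ad_irrefl (p : Vx) : ¬ Ad p p := by
  rintro (h | h) <;> exact h.2.1 rfl

end Pool.Agent.MP_79523e_co.H63
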