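import Mathlib

/- Finite facts about the Paley tournament on 23 points. -/

namespace Pool.Agent.MP_79523e_co.H63

/-- `1` on the nonzero squares modulo 23, and `2 = -1` elsewhere -/
def chi (d : Fin 23) : Fin 3 := if Nat.testBit 340830 d.val then 1 else 2

/-- sign of the arc between `a` and `c` in the Paley tournament, read modulo 3 -/
def sg (a c : Fin 23) : Fin 3 := chi (c - a)

def ag (a : Fin 23) (i : Fin 3) (e : Fin 23) (v : Fin 3) : Prop := e = a ∨ i + chi (e - a) = v

instance (a : Fin 23) (i : Fin 3) (e : Fin 23) (v : Fin 3) : Decidable (ag a i e v) := by
  unfold ag; infer_instance

def big : ℕ := 79942819625630228372272932765257957142427140981417081430912462870343042299163646386153702772038196657899769014670319980697614097361733816560023301003210290086834180549015984838342234851012941158375750650463963463242932410431175868794952309626487856135260389394425471668771488514450708730528002930345921806153327019492793170345973182139409399116741948291900914396788857034265278490855243946770481365335040377604603275169399805147074595145649349166039919995004383179422577461116177220048831781546359881129790564693402464507825263346301479692391414553506769068477070011324788227558002754610827018890453144883118890300574120713662136812443961354877065555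714358906872391899424859419731128687415363872063821145084182109162711011060887528585402557693592647003414094999934924875599746899644134740623133228498184657548788658158870903461054125888162504437671536259724680937664655142544221474635980206526193071966586641900047982654417309506493894471502414118187362471063007804229573071986959508277652091130699438233815390786539520361584391643072710806698609461055654347976720046079590860607884511354475367238701542432930310600130650430138945564237539577882001455727092153244904424548273545201358074846606357814005352970627997878621984506151820902173307202520884353433160666651146013693450403609286279623001833767483011047743142351533288343771072001405633469625416404977618084510720442848239618640968680882879408426183150498514568253464257757185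

def pk (a i : ℕ) : ℕ := Nat.land (Nat.shiftRight big (Nat.mul 69 (Nat.add (Nat.mul 3 a) i)))
  590295810358705651711

def fold3 (x : ℕ) : ℕ := Nat.lor (Nat.lor x (Nat.shiftRight x 23)) (Nat.shiftRight x 46)

def cnt (x : ℕ) : ℕ := (List.range 23).countP (fun c => Nat.testBit x c)

def ok (x : ℕ) : Bool := Nat.ble (cnt (fold3 x)) 5

def chk : Bool :=
  (List.range 23).all fun c => (List.range c).all fun b => Nat.beq b 0 ||
    (List.range 3).all fun j => (List.range 3).all fun k =>
      ok (Nat.land (Nat.land (pk 0 0) (pk b j)) (pk c k)) ||
        (List.range 23).all fun d => Nat.ble d c ||
          (List.range 3).all fun l =>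
            ok (Nat.land (Nat.land (Nat.land (pk 0 0) (pk b j)) (pk c k)) (pk d l))

theorem chk_true : chk = true := by decide +kernel

theorem pk_spec : ∀ a : Fin 23, ∀ i v : Fin 3, ∀ e : Fin 23,
    Nat.testBit (pk a.val i.val) (23 * v.val + e.val) = decide (ag a i e v) := by
  decide +kernel

theorem chi_neg : ∀ d : Fin 23, d ≠ 0 → chi d + chi (-d) = 0 := by decide +kernel

theorem pair_count0 : ∀ b : Fin 23, b ≠ 0 → ∀ j : Fin 3,
    5 ≤ (Finset.univ.filter (fun e : Fin 23 => e ≠ 0 ∧ e ≠ b ∧ chi e = j + chi (e - b))).card := by
  decide +kernel

end Pool.Agent.MP_79523e_co.H63
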