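import Pool.Agent.MP_79523e_co.H63.Paley

namespace Pool.Agent.MP_79523e_co.H63

open Finset

theorem sg_anti {a c : Fin 23} (h : a ≠ c) : sg a c + sg c a = 0 := by
  unfold sg
  have := chi_neg (c - a) (sub_ne_zero.mpr h.symm)
  rwa [neg_sub] at this

theorem chi_cases (d : Fin 23) : chi d = 1 ∨ chi d = 2 := by
  unfold chi; split <;> simp

theorem sg_cases (a c : Fin 23) : sg a c = 1 ∨ sg a c = 2 := chi_cases _

theorem pair_count {a b : Fin 23} (h : a ≠ b) (i j : Fin 3) :
    ∃ D : Finset (Fin 23), 5 ≤ D.card ∧ ∀ c ∈ D, c ≠ a ∧ c ≠ b ∧ i + sg a c = j + sg b c := by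
  have h0 := pair_count0 (b - a) (sub_ne_zero.mpr h.symm) (j - i)
  refine ⟨(univ.filter (fun e : Fin 23 => e ≠ 0 ∧ e ≠ b - a ∧
    chi e = j - i + chi (e - (b - a)))).image (· + a), ?_, ?_⟩
  · rwa [card_image_of_injective _ (add_left_injective a)]
  · intro c hc
    obtain ⟨e, he, rfl⟩ := mem_image.mp hc
    obtain ⟨h1, h2, h3⟩ := (mem_filter.mp he).2
    refine ⟨by simpa using h1, fun h => h2 (by rw [← h]; simp), ?_⟩
    unfold sg
    have e1 : e + a - a = e := by simp
    have e2 : e + a - b = e - (b - a) := by abel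
    rw [e1, e2, h3]; abel

theorem cnt_card (x : ℕ) (P : Fin 23 → Prop) [DecidablePred P]
    (h : ∀ e : Fin 23, P e → Nat.testBit x e.val = true) :
    (univ.filter P).card ≤ cnt x := by
  have h1 : cnt x = ((range 23).filter (fun c => Nat.testBit x c = true)).card := by
    unfold cnt
    rw [List.countP_eq_length_filter]
    simp only [Finset.card, Finset.filter, Finset.range, Multiset.range, Multiset.filter_coe,
      Multiset.coe_card, Bool.decide_eq_true]
  rw [h1]
  apply card_le_card_of_injOn Fin.val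
  · intro e he
    simp only [coe_filter, mem_univ, true_and, Set.mem_ofPred_eq] at he
    simp only [coe_filter, mem_range, Set.mem_ofPred_eq]
    exact ⟨e.isLt, h e he⟩
  · exact Fin.val_injective.injOn

theorem fold3_bit (x : ℕ) (e : Fin 23) (v : Fin 3) (h : Nat.testBit x (23 * v.val + e.val) = true) :
    Nat.testBit (fold3 x) e.val = true := by
  unfold fold3
  have e1 : ∀ a b : ℕ, Nat.lor a b = a ||| b := fun _ _ => rfl
  have e2 : ∀ a b : ℕ, Nat.shiftRight a b = a >>> b := fun _ _ => rfl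
  simp only [e1, e2, Nat.testBit_or, Nat.testBit_shiftRight, Bool.or_eq_true]
  fin_cases v
  · left; left; simpa using h
  · left; right; simpa using h
  · right; simpa using h

theorem quad0 {b c d : Fin 23} (hb : b ≠ 0) (hbc : b < c) (hcd : c < d) (j k l : Fin 3) :
    (univ.filter (fun e : Fin 23 => ∃ v : Fin 3,
      ag 0 0 e v ∧ ag b j e v ∧ ag c k e v ∧ ag d l e v)).card ≤ 5 := by
  have h := chk_true
  unfold chk at h
  simp only [List.all_eq_true, List.mem_range, Bool.or_eq_true] at h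
  have hb' : b.val ≠ 0 := fun h => hb (Fin.ext h)
  have e1 : ∀ a b : ℕ, Nat.land a b = a &&& b := fun _ _ => rfl
  rcases h c.val c.isLt b.val hbc with h | h
  · exact absurd (Nat.eq_of_beq_eq_true h) hb'
  rcases h j.val j.isLt k.val k.isLt with h | h
  · refine le_trans (cnt_card _ _ ?_) (Nat.le_of_ble_eq_true h)
    rintro e ⟨v, h1, h2, h3, -⟩
    apply fold3_bit _ e v
    have p1 := pk_spec 0 0 v e
    have p2 := pk_spec b j v e
    have p3 := pk_spec c k v e
    simp only [h1, h2, h3, decide_true] at p1 p2 p3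
    simp only [e1, Nat.testBit_and, Bool.and_eq_true]
    exact ⟨⟨p1, p2⟩, p3⟩
  rcases h d.val d.isLt with h | h
  · exact absurd (Nat.le_of_ble_eq_true h) (not_le.mpr hcd)
  refine le_trans (cnt_card _ _ ?_) (Nat.le_of_ble_eq_true (h l.val l.isLt))
  rintro e ⟨v, h1, h2, h3, h4⟩
  apply fold3_bit _ e v
  have p1 := pk_spec 0 0 v e
  have p2 := pk_spec b j v e
  have p3 := pk_spec c k v e
  have p4 := pk_spec d l v e
  simp only [h1, h2, h3, h4, decide_true] at p1 p2 p3 p4
  simp only [e1, Nat.testBit_and, Bool.and_eq_true]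
  exact ⟨⟨⟨p1, p2⟩, p3⟩, p4⟩

theorem quad {D : Finset (Fin 23)} (hD : 4 ≤ D.card) (lv : Fin 23 → Fin 3) :
    ∃ B : Finset (Fin 23), B.card ≤ 5 ∧ ∀ e, e ∉ B → ∃ a ∈ D, ∃ a' ∈ D, a ≠ e ∧ a' ≠ e ∧
      lv a + sg a e ≠ lv a' + sg a' e := by
  obtain ⟨a, ha⟩ : D.Nonempty := card_pos.mp (by omega)
  have h3 : 3 ≤ ((D.erase a).image (· - a)).card := by
    rw [card_image_of_injective _ sub_left_injective, card_erase_of_mem ha]; omega
  let f := orderEmbOfCardLe _ h3
  have hf : ∀ t : Fin 3, f t ≠ 0 ∧ f t + a ∈ D := by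
    intro t
    obtain ⟨z, hz, hz'⟩ := mem_image.mp (orderEmbOfCardLe_mem _ h3 t)
    have hz2 := mem_erase.mp hz
    have : f t = z - a := hz'.symm
    rw [this]
    exact ⟨sub_ne_zero.mpr hz2.1, by simpa using hz2.2⟩
  have h01 : f 0 < f 1 := f.strictMono (by decide)
  have h12 : f 1 < f 2 := f.strictMono (by decide)
  have hq := quad0 (hf 0).1 h01 h12 (lv (f 0 + a) - lv a) (lv (f 1 + a) - lv a) (lv (f 2 + a) - lv a)
  refine ⟨_root_.Finset.image (· + a) _, le_trans card_image_le hq, ?_⟩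
  intro e he
  by_contra hcon
  push Not at hcon
  apply he
  refine mem_image.mpr ⟨e - a, mem_filter.mpr ⟨mem_univ _, ?_⟩, by simp⟩
  obtain ⟨w, hw, hwe⟩ : ∃ w ∈ D, w ≠ e := by
    by_cases hae : a = e
    · exact ⟨f 0 + a, (hf 0).2, by rw [← hae]; simpa using (hf 0).1⟩
    · exact ⟨a, ha, hae⟩
  have key : ∀ z : Fin 23, z + a ∈ D → ag z (lv (z + a) - lv a) (e - a) (lv w + sg w e - lv a) := by
    intro z hz
    by_cases hze : z + a = e
    · left; rw [← hze]; simp
    · right
      have := hcon (z + a) hz w hw hze hwe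
      rw [← this]
      unfold sg
      have e2 : e - a - z = e - (z + a) := by abel
      rw [e2]; abel
  refine ⟨lv w + sg w e - lv a, ?_, key _ (hf 0).2, key _ (hf 1).2, key _ (hf 2).2⟩
  have := key 0 (by simpa using ha)
  simpa using this

end Pool.Agent.MP_79523e_co.H63
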